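import Pool.Agent.J4H12.MX.Fin3
import Pool.Agent.J4H28.MX.Tat
import Pool.Agent.J4H72.MX.Mfg
import Pool.Agent.J4H42.MX.Phf
import Pool.Agent.J4H36.MX.Fgm

/-!
# MP_c2f9c6_al: profinite groups with the maximum condition on closed subgroups
-/

set_option autoImplicit false

universe u

namespace Pool.Agent.Results.MP_c2f9c6_al.VirtuallyProductOfProP

open Pool.Agent.J4H12.MX

/-- Let `G` be a profinite group.
(A) `G` satisfies the maximum condition for closed subgroups if and only if only finitely many
primes divide the order of `G` and every closed pro-`p` subgroup of `G`, for every prime `p`, is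
topologically finitely generated.
(B) `G` satisfies the maximum condition for closed subgroups if and only if it has an open normal
subgroup `M` which is the direct product of finitely many closed normal subgroups `R p` of `G`,
where `p` runs over a finite set of primes and `R p` is a pro-`p` group with the maximum condition
for closed subgroups. -/
theorem result (G : Type u) [Group G] [TopologicalSpace G] [IsTopologicalGroup G]
    [CompactSpace G] [TotallyDisconnectedSpace G] :
    (MaxC (⊤ : Subgroup G) ↔ {p : ℕ | p.Prime ∧ Dv p (⊤ : Subgroup G)}.Finite ∧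
      ∀ (p : ℕ) (H : Subgroup G), p.Prime → IsClosed (H : Set G) → ProP p H → TFG H) ∧
    (MaxC (⊤ : Subgroup G) ↔
      ∃ (s : Finset ℕ) (M : Subgroup G) (R : ℕ → Subgroup G), (∀ p ∈ s, p.Prime) ∧ ON M ∧
      (∀ p ∈ s, IsClosed (R p : Set G) ∧ (R p).Normal ∧ ProP p (R p) ∧ MaxC (R p)) ∧
      (∀ p ∈ s, ∀ q ∈ s, p ≠ q → ∀ x ∈ R p, ∀ y ∈ R q, x * y = y * x) ∧
      (∀ p ∈ s, R p ⊓ ⨆ q ∈ s.erase p, R q = ⊥) ∧ M = ⨆ p ∈ s, R p) :=
  main3 Pool.Agent.J4H28.MX.t_TAT (Pool.Agent.J4H36.MX.t_FGM Pool.Agent.J4H42.MX.t_PHF)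
    Pool.Agent.J4H72.MX.t_MFG G

end Pool.Agent.Results.MP_c2f9c6_al.VirtuallyProductOfProP
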